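import Pool.Agent.V1126.BN.Kim2

/-!
# Kimura finite-dimensionality and free pairs of unipotent correspondences
-/

open CategoryTheory AlgebraicGeometry

universe u v

namespace Pool.Agent.Results.MP_868bb7_ag.NilpotenceAndFreePairs

open Pool.Agent.H914 Pool.Agent.W492.BB Pool.Agent.TH133 Pool.Agent.TH829.Prime
  Pool.Agent.TH829.Kim Pool.Agent.V1126.BN

/-- Let `𝒱` be a class of smooth projective varieties over a field, closed under products (for the
problem: all smooth projective varieties over `ℂ`; or the powers of one variety).

1. All Chow motives `h(X)`, `X` in `𝒱`, are finite-dimensional in the sense of Kimura if and only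
   if all numerical motives of the varieties of `𝒱` are so and for all `X` in `𝒱` and all
   numerically trivial `W_0, W_1 ∈ CH^(dim X)(X × X)_ℚ` with `W_0 ∘ W_0 = 0` and `W_1 ∘ W_1 = 0`
   the units `1 + W_0` and `1 + W_1` of the ring `CH^(dim X)(X × X)_ℚ` satisfy a nontrivial
   relation (they are not free generators of a free group).
2. The second condition of 1 holds if and only if for all `X` in `𝒱` all numerically trivial
   elements of `CH^(dim X)(X × X)_ℚ` are nilpotent. -/
theorem result {k : Type u} [Field k] {𝒱 : VarClass k} {C : TheoryData.{u, v, 0} 𝒱 ℚ}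
    [IsChowProj C] (hne : ∀ X : 𝒱.Obj, (1 : C.A X) ≠ 0) :
    ((∀ X : 𝒱.Obj, IsKimuraFinite C (ratFam C) X) ↔
      (∀ X : 𝒱.Obj, IsKimuraFinite C (numFam C) X) ∧ NumRelations C) ∧
    (NumNilpotence C ↔ NumRelations C) :=
  ⟨kimura_iff_relations hne, relations_of_num_nilpotence, num_nilpotence_of_relations hne⟩

end Pool.Agent.Results.MP_868bb7_ag.NilpotenceAndFreePairs
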